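import Pool.Agent.Lib.MP_4fbe7c_an.FC.Iface
import Pool.Agent.Lib.MP_4fbe7c_an.SD.Calc

/-!
Project FC (MP_4fbe7c_an), module LINF: linear functionals of a species (helper92).
-/

set_option autoImplicit false

open Set

namespace Pool.Agent.Lib.MP_4fbe7c_an.FC.H92

open Pool.Agent.Lib.MP_4fbe7c_an.SD

/-- integration by parts twice, Neumann conditions for both functions -/
theorem parts {L : ℝ} (hL : 0 < L) {f f' f'' g g' g'' : ℝ → ℝ} (h1 : DerivOn L f f')
    (h2 : DerivOn L f' f'') (k1 : DerivOn L g g') (k2 : DerivOn L g' g'')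
    (hc : ContinuousOn f'' (Icc 0 L)) (kc : ContinuousOn g'' (Icc 0 L)) (h0 : f' 0 = 0)
    (hl : f' L = 0) (k0 : g' 0 = 0) (kl : g' L = 0) :
    ∫ x in (0)..L, f'' x * g x = ∫ x in (0)..L, f x * g'' x := by
  have hF : DerivOn L (fun x => f' x * g x - f x * g' x)
      (fun x => f'' x * g x - f x * g'' x) := by
    intro x hx
    have e := ((h2 x hx).mul (k1 x hx)).sub ((h1 x hx).mul (k2 x hx))
    exact e.congr_deriv (by ring)
  have c1 : ContinuousOn (fun x => f'' x * g x) (Icc 0 L) := hc.mul k1.continuousOn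
  have c2 : ContinuousOn (fun x => f x * g'' x) (Icc 0 L) := h1.continuousOn.mul kc
  have e := integral_deriv hL hF (c1.sub c2)
  rw [intervalIntegral.integral_sub (c1.intervalIntegrable_of_Icc hL.le)
    (c2.intervalIntegrable_of_Icc hL.le)] at e
  simp only [h0, hl, k0, kl] at e
  linarith

theorem linf : LinFStatement := by
  intro L M P q m ψ ψ' ψ'' Ψ Ψ' N d u v w k C T t ht
  have hL := C.hL
  have cΨ : ContinuousOn (fun p : ℝ × ℝ => Ψ p.2) (Ioi 0 ×ˢ Icc 0 L) :=
    T.D1.continuousOn.comp continuousOn_snd (fun _ hp => hp.2)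
  have cu : ∀ i, ContinuousOn (fun p : ℝ × ℝ => u i p.1 p.2) (Ioi 0 ×ˢ Icc 0 L) := fun i =>
    (C.sol.cu i).mono (prod_mono Ioi_subset_Ici_self subset_rfl)
  have cR : ContinuousOn (fun p : ℝ × ℝ => m p.2 - ∑ j, u j p.1 p.2) (Ioi 0 ×ˢ Icc 0 L) :=
    (C.hm.comp continuousOn_snd (fun _ hp => hp.2)).sub
      (continuousOn_finsetSum _ fun j _ => cu j)
  have hder := hasDerivAt_integral hL (g := fun t x => u k t x * Ψ x)
    (gt := fun t x => (d k * w k t x + u k t x * (m x - ∑ j, u j t x)) * Ψ x)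
    ((cu k).mul cΨ)
    (((continuousOn_const.mul (C.sol.cw k)).add ((cu k).mul cR)).mul cΨ)
    (fun s hs x hx => (C.sol.dt k s hs x hx).mul_const (Ψ x)) t ht
  refine hder.congr_deriv ?_
  have s1 : ContinuousOn (fun x => w k t x * Ψ x) (Icc 0 L) :=
    (slice (C.sol.cw k) (mem_Ioi.2 ht)).mul T.D1.continuousOn
  have s2 : ContinuousOn (fun x => u k t x * (m x - ∑ j, u j t x) * Ψ x) (Icc 0 L) :=
    (slice (g := fun t x => u k t x * (m x - ∑ j, u j t x) * Ψ x)
      (((cu k).mul cR).mul cΨ) (mem_Ioi.2 ht))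
  have hp := parts hL (C.sol.dx k t ht) (C.sol.dxx k t ht) T.D1 T.D2
    (slice (C.sol.cw k) (mem_Ioi.2 ht)) T.d1.continuousOn (C.sol.b0 k t ht) (C.sol.bL k t ht)
    T.B0 T.BL
  have s3 : ContinuousOn (fun x => d k * (w k t x * Ψ x)) (Icc 0 L) := continuousOn_const.mul s1
  rw [← hp, ← intervalIntegral.integral_const_mul, ← intervalIntegral.integral_add
    (s3.intervalIntegrable_of_Icc hL.le) (s2.intervalIntegrable_of_Icc hL.le)]
  refine intervalIntegral.integral_congr fun x _ => ?_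
  ring

end Pool.Agent.Lib.MP_4fbe7c_an.FC.H92
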